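import Mathlib
import Pool.Agent.N20.Blk3

/-!
Brauer's inequality `k(B) ≤ |D|` for blocks with at most `p` irreducible Brauer characters.
-/

namespace Pool.Agent.N20.Shelf.FewBrauerCharacters

open Pool.Agent.H254R3.IN Pool.Agent.N20

/-- Let `B` be a `p`-block of a finite group `G` with defect group `D`, `k(B)` irreducible
characters and `l(B)` irreducible Brauer characters. Then `p k(B) ≤ |D| max(p, l(B))`; in
particular `k(B) ≤ |D|` if `l(B) ≤ p`. -/
theorem result {G : Type} [Group G] [Finite G] {p : ℕ} (hp : p.Prime) (O : ValuationSubring ℂ)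
    (hpO : (p : ℂ) ∈ O.nonunits) (B : Set (G → ℂ)) (hB : IsBlock O B) (D : Subgroup G)
    (hD : IsDefectGroup p O B D) : p * Nat.card B ≤ Nat.card D * max p (lB p B) := by
  haveI := Fintype.ofFinite G
  exact block_bound hp hpO hB hD

end Pool.Agent.N20.Shelf.FewBrauerCharacters
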