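import Pool.Agent.N20.KRM.Com

/-!
MP_b6945b_al (the Knörr–Robinson conjecture): the conjecture is equivalent to a congruence modulo `p`
which does not mention characters.

Notation (`Pool/Agent/Y63/KR/Levels.lean`, `Pool/Agent/Y63/AWC/Defs.lean`,
`Pool/Agent/N85/WM/Stm.lean`, `Pool/Agent/N20/KRM/Main.lean`, `Pool/Agent/N20/KRM/Com.lean`).
* `chi2 p H` is `χ₂(S, H)` for the poset `S` of nontrivial `p`-subgroups of `H`, `numDefectZero p H`
  is `z_p(H)`, and `KRC p H` says `χ₂(S, H) = k(H) - z_p(H)`.
* `kr p H = k(H) - χ₂(S, H)`, that is `- χ̃₂(S, H)`: the conjecture for `H` is `kr p H = z_p(H)`.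
* `com p H` is `|H|⁻¹` times the number of the pairs `(x, y)` of elements of `H` such that the order
  of the commutator `[x, y]` is a power of `p`.
* `Wr p H = H ≀ C_p` is the wreath product `H^p ⋊ C_p`, and `WrN p G n` is the iterated wreath
  product `(⋯ ((G ≀ C_p) ≀ C_p) ⋯) ≀ C_p` with `n` factors `C_p` (`WrN p G 0 = G`).
-/

set_option autoImplicit false

namespace Pool.Agent.Results.MP_b6945b_al.ModuloP

open Pool.Agent.Y63.KR (KRC chi2)
open Pool.Agent.Y63.AWC (numDefectZero)
open Pool.Agent.N85.WM (Wr)
open Pool.Agent.N20.KRM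

/-- Let `p` be a prime.
1. For every finite group `G` the Knörr–Robinson conjecture holds for `G` if and only if
`- χ̃₂(S, W) ≡ |W|⁻¹ |{(x, y) ∈ W × W : [x, y] has p-power order}| (mod p)`
for the iterated wreath products `W = G, G ≀ C_p, (G ≀ C_p) ≀ C_p, …`.
2. More precisely `- χ̃₂(S, G) ≡ z_p(G) (mod p^m)` if and only if this congruence modulo `p` holds for
the first `m` of these groups `W`.
3. For every class `X` of groups closed under `G ↦ G ≀ C_p` (for instance the class of all groups) the
conjecture holds for all finite groups in `X` if and only if the congruence modulo `p` holds for all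
finite groups in `X`. -/
theorem result (p : ℕ) [Fact p.Prime] :
    (∀ (G : Type) [Group G] [Finite G], KRC p G ↔
      ∀ n : ℕ, ∃ j : ℤ, kr p (WrN p (GrpCat.of G) n) = com p (WrN p (GrpCat.of G) n) + p * j) ∧
    (∀ (G : Type) [Group G] [Finite G] (m : ℕ),
      (∃ j : ℤ, kr p G = (numDefectZero p G : ℚ) + p ^ m * j) ↔
        ∀ n < m, ∃ j : ℤ,
          kr p (WrN p (GrpCat.of G) n) = com p (WrN p (GrpCat.of G) n) + p * j) ∧
    ∀ X : (H : Type) → [Group H] → Prop,
      (∀ (H : Type) [Group H] [Finite H], X H → X (Wr p H)) →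
      ((∀ (H : Type) [Group H] [Finite H], X H → KRC p H) ↔
        ∀ (H : Type) [Group H] [Finite H], X H → ∃ j : ℤ, kr p H = com p H + p * j) := by
  have h1 : ∀ (G : Type) [Group G] [Finite G], KRC p G ↔
      ∀ n : ℕ, ∃ j : ℤ,
        kr p (WrN p (GrpCat.of G) n) = com p (WrN p (GrpCat.of G) n) + p * j := by
    intro G _ _
    rw [fixed p G]
    refine forall_congr' fun n => ?_
    have _i : Finite (GrpCat.of G) := inferInstanceAs (Finite G)
    have _i2 := wrN_finite p (GrpCat.of G) n
    rw [com_eq]
  have hcong : ∀ (H : Type) [Group H] [Finite H], KRC p H → ∃ j : ℤ, kr p H = com p H + p * j := by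
    intro H _ _ hH
    have := (h1 H).1 hH 0
    exact this
  refine ⟨h1, ?_, ?_⟩
  · intro G _ _ m
    rw [fixed_mod p G m]
    refine forall_congr' fun n => imp_congr_right fun _ => ?_
    have _i : Finite (GrpCat.of G) := inferInstanceAs (Finite G)
    have _i2 := wrN_finite p (GrpCat.of G) n
    rw [com_eq]
  · intro X hX
    constructor
    · intro h H _ _ hH
      exact hcong H (h H hH)
    · intro h H _ _ hH
      rw [h1 H]
      have key : ∀ n : ℕ, X (WrN p (GrpCat.of H) n) := by
        intro n
        have _i : Finite (GrpCat.of H) := inferInstanceAs (Finite H)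
        induction n with
        | zero => exact hH
        | succ n ih =>
          have _i2 := wrN_finite p (GrpCat.of H) n
          exact hX (WrN p (GrpCat.of H) n) ih
      intro n
      have _i : Finite (GrpCat.of H) := inferInstanceAs (Finite H)
      have _i2 := wrN_finite p (GrpCat.of H) n
      exact h (WrN p (GrpCat.of H) n) (key n)

end Pool.Agent.Results.MP_b6945b_al.ModuloP
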